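import Pool.Agent.Q37.NU.Ex2

/-!
# MP_29aef5_ag, Q1: non-ubiquitous partial symmetric decompositions exist in every codimension `r ≥ 3`

For every field `k` and every `r ≥ 3` there are an Artinian Gorenstein quotient `A = k{x_1,…,x_r}/I`
(with `I ⊆ 𝔪²`, so of embedding dimension exactly `r`) and an integer `a ≥ 1` such that no Artinian
Gorenstein local quotient `B` of any power series ring `k{x_1,…,x_s}` has `𝓓(B) = 𝓓_{≤ a}(A)`.

The example (`Q37.NU.II`): `A = R/Ann(F)` for the dual generator (divided powers)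
`F = X⁴Y⁴ + Z (X⁶ + Y⁶) + ∑_{l ≥ 4} Z_l²`, and `a = 1`.
-/

set_option autoImplicit false

namespace Pool.Agent.Results.MP_29aef5_ag.NonUbiquitous

open Q37.NU

theorem result (k : Type*) [Field k] (r : ℕ) (hr : 3 ≤ r) :
    ∃ (I : Ideal (PS k r)) (_ : IsLocalRing (PS k r ⧸ I)), IsAG (PS k r ⧸ I) k ∧
      I ≤ IsLocalRing.maximalIdeal (PS k r) ^ 2 ∧
      ∃ a, 1 ≤ a ∧
        ∀ (s : ℕ) (J : Ideal (PS k s)) [IsLocalRing (PS k s ⧸ J)], IsAG (PS k s ⧸ J) k →
          ¬ ∀ u i, hilb (PS k s ⧸ J) k u i = if u ≤ a then hilb (PS k r ⧸ I) k u i else 0 :=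
  Q37.NU.main k r hr

end Pool.Agent.Results.MP_29aef5_ag.NonUbiquitous
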